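import Pool.Agent.Helper35.BR.Defs

/-!
# BR, block END: the value at a conjugate is a polynomial in the entries of the matrix
-/

set_option autoImplicit false

namespace Pool.Agent.Helper66.BR

open MvPolynomial Pool.Agent.Helper35.BR

/-- the generic matrix -/
noncomputable def Xm (S : Type) [CommRing S] {r : ℕ} (m : Fin r → ℕ) (i : Fin r) :
    Matrix (Fin (m i)) (Fin (m i)) (MvPolynomial (Σ i : Fin r, Fin (m i) × Fin (m i)) S) :=
  Matrix.of fun p q => X ⟨i, p, q⟩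

/-- evaluation at a family of matrices -/
noncomputable def ev {S Ω : Type} [CommRing S] [CommRing Ω] {r : ℕ} {m : Fin r → ℕ} (ψ : S →+* Ω)
    (u : ∀ i, Matrix (Fin (m i)) (Fin (m i)) Ω) :
    MvPolynomial (Σ i : Fin r, Fin (m i) × Fin (m i)) S →+* Ω :=
  eval₂Hom ψ (fun v => u v.1 v.2.1 v.2.2)

theorem ev_Xm {S Ω : Type} [CommRing S] [CommRing Ω] {r : ℕ} {m : Fin r → ℕ} (ψ : S →+* Ω)
    (u : ∀ i, Matrix (Fin (m i)) (Fin (m i)) Ω) (i : Fin r) :
    (ev ψ u).mapMatrix (Xm S m i) = u i := by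
  ext p q
  rw [RingHom.mapMatrix_apply, Matrix.map_apply, Xm, Matrix.of_apply, ev, coe_eval₂Hom, eval₂_X]

theorem ev_C {S Ω : Type} [CommRing S] [CommRing Ω] {r : ℕ} {m : Fin r → ℕ} (ψ : S →+* Ω)
    (u : ∀ i, Matrix (Fin (m i)) (Fin (m i)) Ω) (i : Fin r) (x : Matrix (Fin (m i)) (Fin (m i)) S) :
    (ev ψ u).mapMatrix ((C : S →+* MvPolynomial (Σ i : Fin r, Fin (m i) × Fin (m i)) S).mapMatrix x)
      = ψ.mapMatrix x := by
  ext p q
  rw [RingHom.mapMatrix_apply, Matrix.map_apply, RingHom.mapMatrix_apply, Matrix.map_apply,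
    RingHom.mapMatrix_apply, Matrix.map_apply, ev, coe_eval₂Hom, eval₂_C]

/-- `det u • u⁻¹` is the adjugate -/
theorem adj_unit {Ω : Type} [CommRing Ω] {n : ℕ} (u : (Matrix (Fin n) (Fin n) Ω)ˣ) :
    (u : Matrix (Fin n) (Fin n) Ω).det • ((u⁻¹ : (Matrix (Fin n) (Fin n) Ω)ˣ) :
      Matrix (Fin n) (Fin n) Ω) = (u : Matrix (Fin n) (Fin n) Ω).adjugate := by
  have h := Matrix.mul_adjugate (u : Matrix (Fin n) (Fin n) Ω)
  have h2 : ((u⁻¹ : (Matrix (Fin n) (Fin n) Ω)ˣ) : Matrix (Fin n) (Fin n) Ω) *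
      ((u : Matrix (Fin n) (Fin n) Ω) * (u : Matrix (Fin n) (Fin n) Ω).adjugate) =
      (u : Matrix (Fin n) (Fin n) Ω).adjugate := by
    rw [← mul_assoc, Units.inv_mul, one_mul]
  rw [← h2, h, mul_smul_comm, mul_one]

/-- **P8.** the value of `g` at the conjugates of `ρ` is a polynomial in the entries of `u`, up to a
power of the determinants -/
theorem conj_poly {R : Type} [CommRing R] {r : ℕ} {A : Fin r → Type} [∀ i, Ring (A i)]
    [∀ i, Algebra R (A i)] {m : Fin r → ℕ} {S : Type} [CommRing S] [Algebra R S]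
    (ρ : ∀ i, A i →+* Matrix (Fin (m i)) (Fin (m i)) S) (hρ : ∀ i, Over (algebraMap R S) (ρ i))
    (g : HomRing R A m) :
    ∃ (k : ℕ) (G : MvPolynomial (Σ i : Fin r, Fin (m i) × Fin (m i)) S),
      ∀ (Ω : Type) [Field Ω] (ψ : S →+* Ω) (u : ∀ i, (Matrix (Fin (m i)) (Fin (m i)) Ω)ˣ),
        eval₂ ψ (fun v => (u v.1 : Matrix (Fin (m v.1)) (Fin (m v.1)) Ω) v.2.1 v.2.2) G =
          (∏ i, (u i : Matrix (Fin (m i)) (Fin (m i)) Ω).det) ^ k *
          lift (ψ.comp (algebraMap R S)) (fun i => (conj (u i)).comp (ψ.mapMatrix.comp (ρ i)))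
            (fun i => ((hρ i).comp ψ).conj (u i)) g := by
  classical
  -- the determinants
  obtain ⟨D, hD⟩ : ∃ D : MvPolynomial (Σ i : Fin r, Fin (m i) × Fin (m i)) S,
      D = ∏ i, (Xm S m i).det := ⟨_, rfl⟩
  have hDe : ∀ (Ω : Type) [Field Ω] (ψ : S →+* Ω)
      (u : ∀ i, (Matrix (Fin (m i)) (Fin (m i)) Ω)ˣ),
      ev ψ (fun i => (u i : Matrix (Fin (m i)) (Fin (m i)) Ω)) D =
        ∏ i, (u i : Matrix (Fin (m i)) (Fin (m i)) Ω).det := by
    intro Ω _ ψ u
    rw [hD, map_prod]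
    refine Finset.prod_congr rfl fun i _ => ?_
    rw [RingHom.map_det, ev_Xm]
  -- addition and multiplication
  have key : ∀ p : MvPolynomial (HVar A m) R,
      ∃ (k : ℕ) (G : MvPolynomial (Σ i : Fin r, Fin (m i) × Fin (m i)) S),
      ∀ (Ω : Type) [Field Ω] (ψ : S →+* Ω) (u : ∀ i, (Matrix (Fin (m i)) (Fin (m i)) Ω)ˣ),
        ev ψ (fun i => (u i : Matrix (Fin (m i)) (Fin (m i)) Ω)) G =
          (∏ i, (u i : Matrix (Fin (m i)) (Fin (m i)) Ω).det) ^ k *
          lift (ψ.comp (algebraMap R S)) (fun i => (conj (u i)).comp (ψ.mapMatrix.comp (ρ i)))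
            (fun i => ((hρ i).comp ψ).conj (u i)) (Ideal.Quotient.mk _ p : HomRing R A m) := by
    intro p
    induction p using MvPolynomial.induction_on with
    | C c =>
      refine ⟨0, C (algebraMap R S c), fun Ω _ ψ u => ?_⟩
      have h1 := lift_algebraMap (ψ.comp (algebraMap R S))
        (fun i => (conj (u i)).comp (ψ.mapMatrix.comp (ρ i)))
        (fun i => ((hρ i).comp ψ).conj (u i)) c
      rw [pow_zero, one_mul, ev, coe_eval₂Hom, eval₂_C]
      exact h1.symm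
    | add p q hp hq =>
      obtain ⟨k1, G1, h1⟩ := hp
      obtain ⟨k2, G2, h2⟩ := hq
      refine ⟨k1 + k2, D ^ k2 * G1 + D ^ k1 * G2, fun Ω _ ψ u => ?_⟩
      rw [map_add, map_mul, map_mul, map_pow, map_pow, hDe, h1, h2, map_add, map_add]
      ring
    | mul_X p v hp =>
      obtain ⟨k1, G1, h1⟩ := hp
      obtain ⟨i, a, p', q'⟩ := v
      refine ⟨k1 + 1, G1 * ((∏ j ∈ Finset.univ.erase i, (Xm S m j).det) *
        (Xm S m i * (C : S →+* MvPolynomial (Σ i : Fin r, Fin (m i) × Fin (m i)) S).mapMatrix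
          (ρ i a) * (Xm S m i).adjugate) p' q'), fun Ω _ ψ u => ?_⟩
      have h2 : ev ψ (fun i => (u i : Matrix (Fin (m i)) (Fin (m i)) Ω))
          ((Xm S m i * (C : S →+* MvPolynomial (Σ i : Fin r, Fin (m i) × Fin (m i)) S).mapMatrix
          (ρ i a) * (Xm S m i).adjugate) p' q') =
          (u i : Matrix (Fin (m i)) (Fin (m i)) Ω).det *
            (conj (u i) (ψ.mapMatrix (ρ i a))) p' q' := by
        have h3 : ∀ M : Matrix (Fin (m i)) (Fin (m i))
            (MvPolynomial (Σ i : Fin r, Fin (m i) × Fin (m i)) S),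
            ev ψ (fun i => (u i : Matrix (Fin (m i)) (Fin (m i)) Ω)) (M p' q') =
            ((ev ψ (fun i => (u i : Matrix (Fin (m i)) (Fin (m i)) Ω))).mapMatrix M) p' q' :=
          fun M => rfl
        rw [h3, map_mul, map_mul, RingHom.map_adjugate, ev_Xm, ev_C, ← adj_unit, mul_smul_comm,
          Matrix.smul_apply, smul_eq_mul]
        rfl
      have h4 : ev ψ (fun i => (u i : Matrix (Fin (m i)) (Fin (m i)) Ω))
          (∏ j ∈ Finset.univ.erase i, (Xm S m j).det) =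
          ∏ j ∈ Finset.univ.erase i, (u j : Matrix (Fin (m j)) (Fin (m j)) Ω).det := by
        rw [map_prod]
        refine Finset.prod_congr rfl fun j _ => ?_
        rw [RingHom.map_det, ev_Xm]
      have h5 : lift (ψ.comp (algebraMap R S))
          (fun i => (conj (u i)).comp (ψ.mapMatrix.comp (ρ i)))
          (fun i => ((hρ i).comp ψ).conj (u i))
          (Ideal.Quotient.mk _ (X ⟨i, a, p', q'⟩) : HomRing R A m) =
          (conj (u i) (ψ.mapMatrix (ρ i a))) p' q' :=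
        lift_cd (ψ.comp (algebraMap R S))
          (fun i => (conj (u i)).comp (ψ.mapMatrix.comp (ρ i)))
          (fun i => ((hρ i).comp ψ).conj (u i)) ⟨i, a, p', q'⟩
      rw [map_mul, map_mul, h1, h2, h4, map_mul, map_mul, h5, pow_succ,
        ← Finset.mul_prod_erase Finset.univ
          (fun j => (u j : Matrix (Fin (m j)) (Fin (m j)) Ω).det) (Finset.mem_univ i)]
      ring
  obtain ⟨p, rfl⟩ := Ideal.Quotient.mk_surjective g
  obtain ⟨k, G, h⟩ := key p
  exact ⟨k, G, fun Ω _ ψ u => h Ω ψ u⟩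

end Pool.Agent.Helper66.BR
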